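import Pool.Agent.Y223.G.Stm5
import Pool.Agent.Y223.G.WBase

/-!
# Comparison of the graded algebra of a chart with the algebras at the ramified primes
-/

set_option autoImplicit false

namespace Pool.Agent.Y363.G

open Pool.Agent.Y223.G

section

variable {k O K : Type} [CommRing k] [CommRing O] [Field K] [Algebra k O] [Algebra O K]
  [Algebra k K] [IsScalarTower k O K]

omit [Algebra k O] [IsScalarTower k O K] in
lemma one_hm {C : Subalgebra O K} {c : K} (hc : c ∈ C) (d : ℤ) :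
    hm d c ∈ RR k (1 : K ≃ₐ[k] K) 1 (⊤ : Ideal O) 0 C := by
  have h0 : hm 0 c ∈ RR k (1 : K ≃ₐ[k] K) 1 (⊤ : Ideal O) 0 C := RR_c one_pos hc
  have h1 : hm 1 (1 : K) ∈ RR k (1 : K ≃ₐ[k] K) 1 (⊤ : Ideal O) 0 C := by
    have h := RR_e (k := k) (τ := (1 : K ≃ₐ[k] K)) (p := 1) (l := 0) (C := C)
      (Submodule.mem_top : (1 : O) ∈ (⊤ : Ideal O))
    rwa [map_one] at h
  rcases le_total d 0 with hd | hd
  · exact RR_low' h0 hd
  · have h2 := (RR k (1 : K ≃ₐ[k] K) 1 (⊤ : Ideal O) 0 C).mul_mem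
      ((RR k (1 : K ≃ₐ[k] K) 1 (⊤ : Ideal O) 0 C).pow_mem h1 d.toNat) h0
    rw [hm_pow, one_pow, hm_mul, one_mul] at h2
    have h3 : (d.toNat : ℤ) * 1 + 0 = d := by
      rw [Int.toNat_of_nonneg hd]
      ring
    rwa [h3] at h2

lemma le_one {τ : K ≃ₐ[k] K} {p l : ℕ} {𝔓 : Ideal O} {C : Subalgebra O K}
    (hC : ∀ c ∈ C, τ c ∈ C) {f : LP K} (hf : f ∈ RR k τ p 𝔓 l C) :
    f ∈ RR k (1 : K ≃ₐ[k] K) 1 (⊤ : Ideal O) 0 C :=
  mem_of_comp _ fun d => one_hm (RR_coeff hC hf d) d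

omit [Algebra k O] [IsScalarTower k O K] in
lemma hm_alg {τ : K ≃ₐ[k] K} {p l : ℕ} {𝔓 : Ideal O} {C : Subalgebra O K} (hp : 0 < p) (s : O) :
    hm 0 (algebraMap O K s) ∈ RR k τ p 𝔓 l C :=
  RR_c hp (C.algebraMap_mem s)

/-- a multiple is in the algebra at a prime -/
lemma mult_mem {τ : K ≃ₐ[k] K} {p l : ℕ} {𝔓 : Ideal O} {C : Subalgebra O K} (hp : 0 < p) {s : O}
    (hs : s ∈ 𝔓) {f : LP K} (hf : f ∈ RR k (1 : K ≃ₐ[k] K) 1 (⊤ : Ideal O) 0 C) {D : ℕ}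
    (hD : ∀ d ∈ f.coeff.support, d ≤ (D : ℤ)) :
    hm 0 (algebraMap O K s) ^ D * f ∈ RR k τ p 𝔓 l C := by
  rw [eq_sum_hm f, Finset.mul_sum]
  refine (RR k τ p 𝔓 l C).sum_mem fun d hd => ?_
  have hc : f.coeff d ∈ C := RR_coeff (τ := (1 : K ≃ₐ[k] K)) (fun c hc => hc) hf d
  have h1 := (RR k τ p 𝔓 l C).mul_mem
    (RR_epow (k := k) (τ := τ) (l := l) (C := C) hp D (Ideal.pow_mem_pow hs D))
    (RR_c (k := k) (τ := τ) (l := l) (𝔓 := 𝔓) hp hc)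
  rw [hm_mul, add_zero] at h1
  have h2 := RR_low' h1 (hD d hd)
  rw [hm_pow, hm_mul, mul_zero, zero_add, ← map_pow]
  exact h2

lemma exists_deg (f : LP K) : ∃ D : ℕ, ∀ d ∈ f.coeff.support, d ≤ (D : ℤ) := by
  refine ⟨f.coeff.support.sup Int.toNat, fun d hd => ?_⟩
  have h := Finset.le_sup (f := Int.toNat) hd
  exact (Int.self_le_toNat d).trans (by exact_mod_cast h)

end

theorem t_RGLU : Pool.Agent.Y223.G.S_RGLU := by
  intro k O K G _ _ _ _ _ _ _ _ _ _ ρ T N _ 𝔔 p l τ hL C hC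
  have hp : ∀ i, 0 < p i := by
    intro i
    rcases hL.ty i with ⟨h, -⟩ | ⟨h, -, -⟩
    · rw [h]; exact one_pos
    · exact h.pp.pos
  constructor
  · intro i s hs f hf
    have hf1 := le_one (hC (τ i)) hf
    obtain ⟨D, hD⟩ := exists_deg f
    refine ⟨D, ?_⟩
    unfold RG
    rw [Algebra.mem_inf, Algebra.mem_iInf]
    refine ⟨Subalgebra.mul_mem _ (Subalgebra.pow_mem _ (hm_alg one_pos s) _) hf1, fun j => ?_⟩
    by_cases hj : j = i
    · subst hj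
      exact Subalgebra.mul_mem _ (Subalgebra.pow_mem _ (hm_alg (hp j) s) _) hf
    · exact mult_mem (hp j) (hs j hj) hf1 hD
  · intro s hs f hf
    obtain ⟨D, hD⟩ := exists_deg f
    refine ⟨D, ?_⟩
    unfold RG
    rw [Algebra.mem_inf, Algebra.mem_iInf]
    exact ⟨Subalgebra.mul_mem _ (Subalgebra.pow_mem _ (hm_alg one_pos s) _) hf,
      fun j => mult_mem (hp j) (hs j) hf hD⟩

end Pool.Agent.Y363.G
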