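import Pool.Agent.Y223.G.Stm

/-!
# Compatible weighted blowups give an atlas
-/

set_option autoImplicit false

namespace Pool.Agent.Y363.G

open Pool.Agent.Y223.G

section sats

variable {k K : Type} [CommRing k] [IsDomain k] [Field K] [Algebra k K]

lemma sat_mul {M N : Submodule k K} {x y : K} (hx : x ∈ sat M) (hy : y ∈ sat N) :
    x * y ∈ sat (M * N) := by
  obtain ⟨s, hs, hx⟩ := hx
  obtain ⟨t, ht, hy⟩ := hy
  refine ⟨s * t, mul_ne_zero hs ht, ?_⟩
  have h1 : (s * t) • (x * y) = (s • x) * (t • y) := by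
    simp only [Algebra.smul_def, map_mul]
    ring
  rw [h1]
  exact Submodule.mul_mem_mul hx hy

lemma sat_pow {M : Submodule k K} {x : K} (hx : x ∈ sat M) (n : ℕ) : x ^ n ∈ sat (M ^ n) := by
  induction n with
  | zero =>
    refine ⟨1, one_ne_zero, ?_⟩
    rw [pow_zero, pow_zero, one_smul]
    exact Submodule.one_le.1 le_rfl
  | succ n ih =>
    rw [pow_succ, pow_succ]
    exact sat_mul ih hx

lemma div_pow_mem {M : Submodule k K} {R : Subalgebra k (LP K)} {h : K}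
    (hM : ∀ m ∈ M, ∃ s : k, s ≠ 0 ∧ hm 0 (s • (m / h)) ∈ R) (N : ℕ) :
    ∀ m ∈ M ^ N, ∃ s : k, s ≠ 0 ∧ hm 0 (s • (m / h ^ N)) ∈ R := by
  induction N with
  | zero =>
    intro m hm'
    rw [pow_zero, Submodule.mem_one] at hm'
    obtain ⟨c, rfl⟩ := hm'
    refine ⟨1, one_ne_zero, ?_⟩
    rw [one_smul, pow_zero, div_one, ← algebraMap_LP]
    exact R.algebraMap_mem c
  | succ N ih =>
    intro m hm'
    rw [pow_succ] at hm'
    refine Submodule.mul_induction_on hm' ?_ ?_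
    · intro x hx y hy
      obtain ⟨s, hs, hx⟩ := ih x hx
      obtain ⟨t, ht, hy⟩ := hM y hy
      refine ⟨s * t, mul_ne_zero hs ht, ?_⟩
      have h1 := R.mul_mem hx hy
      rw [hm_mul, add_zero] at h1
      have e : (s * t) • (x * y / h ^ (N + 1)) = s • (x / h ^ N) * t • (y / h) := by
        simp only [Algebra.smul_def, map_mul, pow_succ]
        rw [mul_div_mul_comm]
        ring
      rw [e]
      exact h1
    · rintro x y ⟨s, hs, hx⟩ ⟨t, ht, hy⟩
      refine ⟨s * t, mul_ne_zero hs ht, ?_⟩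
      have e : (s * t) • ((x + y) / h ^ (N + 1)) =
          t • (s • (x / h ^ (N + 1))) + s • (t • (y / h ^ (N + 1))) := by
        rw [smul_smul, smul_smul, add_div, smul_add, mul_comm t s]
      have h1 := R.smul_mem hx t
      have h2 := R.smul_mem hy s
      rw [smul_hm] at h1 h2
      rw [e, hm_add]
      exact R.add_mem h1 h2

end sats

section cover

variable {k K : Type} [CommRing k] [Field K] [Algebra k K] {R : Subalgebra k (LP K)}

/-- Homogeneous generators of positive degree. -/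
lemma exists_pos_gens (hft : Algebra.FiniteType k R) (hgr : Gr R)
    (hpos : ∃ (d : ℕ) (a : K), 0 < d ∧ a ≠ 0 ∧ hm d a ∈ R) :
    ∃ (J : Type) (_ : Finite J) (_ : Nonempty J) (d : J → ℕ) (y : J → K),
      (∀ j, 0 < d j ∧ y j ≠ 0 ∧ hm (d j) (y j) ∈ R) ∧
      R ≤ Algebra.adjoin k ({f | f ∈ R ∧ ∃ (m : ℤ) (a : K), m ≤ 0 ∧ f = hm m a} ∪
        Set.range fun j => hm (d j) (y j)) := by
  classical
  obtain ⟨s, hs⟩ := (Subalgebra.fg_iff_finiteType _).2 hft
  obtain ⟨d0, a0, hd0, ha0, h0⟩ := hpos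
  let J0 := {p : (Σ f : s, ((f : LP K).coeff.support)) // 0 < (p.2 : ℤ)}
  have hsR : ∀ f ∈ s, f ∈ R := by
    intro f hf
    rw [← hs]
    exact Algebra.subset_adjoin hf
  have hcast : ∀ p : J0, (((p.1.2 : ℤ).toNat : ℕ) : ℤ) = p.1.2 := fun p =>
    Int.toNat_of_nonneg p.2.le
  refine ⟨Option J0, inferInstance, inferInstance,
    fun o => o.elim d0 fun p => (p.1.2 : ℤ).toNat, fun o => o.elim a0 fun p =>
      (p.1.1 : LP K).coeff p.1.2, ?_, ?_⟩
  · rintro (_ | p)
    · exact ⟨hd0, ha0, h0⟩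
    · refine ⟨?_, ?_, ?_⟩
      · have := p.2
        change 0 < (p.1.2 : ℤ).toNat
        omega
      · exact Finsupp.mem_support_iff.1 p.1.2.2
      · change hm (((p.1.2 : ℤ).toNat : ℕ) : ℤ) _ ∈ R
        rw [hcast]
        exact hgr _ (hsR _ p.1.1.2) _
  · rw [← hs, Algebra.adjoin_le_iff]
    intro f hf
    change f ∈ Algebra.adjoin k _
    rw [eq_sum_hm f]
    refine Subalgebra.sum_mem _ fun m hm' => ?_
    by_cases hm0 : 0 < m
    · refine Algebra.subset_adjoin (Or.inr ⟨some ⟨⟨⟨f, hf⟩, ⟨m, hm'⟩⟩, hm0⟩, ?_⟩)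
      change hm ((m.toNat : ℕ) : ℤ) (f.coeff m) = _
      rw [Int.toNat_of_nonneg hm0.le]
    · refine Algebra.subset_adjoin (Or.inl ⟨?_, m, _, not_lt.1 hm0, rfl⟩)
      rw [hs]
      exact hgr _ (hsR _ hf) _

/-- The elements of the graded algebra have bounded valuation. -/
lemma val_R {J : Type} (d : J → ℕ) (y : J → K)
    (hgen : R ≤ Algebra.adjoin k ({f | f ∈ R ∧ ∃ (m : ℤ) (a : K), m ≤ 0 ∧ f = hm m a} ∪
        Set.range fun j => hm (d j) (y j))) (V : ValuationSubring K)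
    (hV : ∀ f ∈ R, ∀ d, f.coeff d ∈ V)
    (j0 : J) (hd0 : 0 < d j0) (hy0 : y j0 ≠ 0) (hyR : hm (d j0) (y j0) ∈ R)
    (hmax : ∀ j, V.valuation (y j) ^ d j0 ≤ V.valuation (y j0) ^ d j)
    {x : LP K} (hx : x ∈ R) (m : ℤ) :
    V.valuation (x.coeff m) ^ d j0 ≤ V.valuation (y j0) ^ m := by
  classical
  set v := V.valuation with hv
  have hpos : 0 < v (y j0) := by
    rw [zero_lt_iff, Ne, map_eq_zero]
    exact hy0
  have hBpos : ∀ e : ℤ, 0 < v (y j0) ^ e := fun e => zpow_pos hpos e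
  have hy1 : v (y j0) ≤ 1 := by
    have hb := hV _ hyR (d j0)
    rw [coeff_hm_same] at hb
    exact (V.valuation_le_one_iff _).2 hb
  have hadd : ∀ (e : ℤ) (b c : K), v b ^ d j0 ≤ v (y j0) ^ e →
      v c ^ d j0 ≤ v (y j0) ^ e → v (b + c) ^ d j0 ≤ v (y j0) ^ e := by
    intro e b c hb hc
    rcases v.map_add' b c with h | h
    · exact (pow_le_pow_left' h _).trans hb
    · exact (pow_le_pow_left' h _).trans hc
  have hzero : ∀ e : ℤ, v (0 : K) ^ d j0 ≤ v (y j0) ^ e := by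
    intro e
    rw [map_zero, zero_pow (by omega)]
    exact (hBpos e).le
  have h1 := hgen hx
  clear hx
  induction h1 using Algebra.adjoin_induction generalizing m with
  | mem x hx =>
    rcases hx with ⟨hxR, l, a, hl, rfl⟩ | ⟨j, rfl⟩
    · rw [coeff_hm]
      split_ifs with h
      · have hb := hV _ hxR l
        rw [coeff_hm_same] at hb
        have h2 : v a ≤ 1 := (V.valuation_le_one_iff _).2 hb
        rw [← h]
        refine (pow_le_one' h2 _).trans ?_
        obtain ⟨n, hn⟩ := Int.eq_ofNat_of_zero_le (a := -l) (by omega)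
        have hl' : l = -(n : ℤ) := by
          have : -l = (n : ℤ) := hn
          omega
        rw [hl', zpow_neg, zpow_natCast]
        exact one_le_inv_iff₀.2 ⟨pow_pos hpos n, pow_le_one' hy1 n⟩
      · exact hzero m
    · simp only [coeff_hm]
      split_ifs with h
      · rw [← h, zpow_natCast]
        exact hmax j
      · exact hzero m
  | algebraMap r =>
    rw [algebraMap_LP, coeff_hm]
    split_ifs with h
    · rw [← h, zpow_zero]
      have h2 := hV _ (R.algebraMap_mem r) 0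
      rw [algebraMap_LP, coeff_hm_same] at h2
      exact pow_le_one' ((V.valuation_le_one_iff _).2 h2) _
    · exact hzero m
  | add x y _ _ hx hy =>
    rw [AddMonoidAlgebra.coeff_add, Finsupp.add_apply]
    exact hadd m _ _ (hx m) (hy m)
  | mul x z _ _ hx hy =>
    rw [eq_sum_hm x, Finset.sum_mul, AddMonoidAlgebra.coeff_sum, Finsupp.finsetSum_apply]
    have h1 : ∀ j ∈ x.coeff.support, v ((hm j (x.coeff j) * z).coeff m) ^ d j0 ≤
        v (y j0) ^ m := by
      intro j _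
      rw [coeff_hm_mul, map_mul, mul_pow]
      have h2 : v (y j0) ^ m = v (y j0) ^ j * v (y j0) ^ (m - j) := by
        rw [← zpow_add₀ hpos.ne']
        congr 1
        ring
      rw [h2]
      exact mul_le_mul' (hx j) (hy (m - j))
    have h3 : ∀ s : Finset ℤ, (∀ j ∈ s, v ((hm j (x.coeff j) * z).coeff m) ^ d j0 ≤
        v (y j0) ^ m) → v (∑ j ∈ s, (hm j (x.coeff j) * z).coeff m) ^ d j0 ≤
          v (y j0) ^ m := by
      intro s
      induction s using Finset.induction_on with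
      | empty => intro _; rw [Finset.sum_empty]; exact hzero m
      | insert i s hi ih =>
        intro h
        rw [Finset.sum_insert hi]
        exact hadd m _ _ (h i (Finset.mem_insert_self i s))
          (ih fun i' hi' => h i' (Finset.mem_insert_of_mem hi'))
    exact h3 _ h1

/-- The charts cover all valuations. -/
lemma cover_cv (hCh : Ch R) {T : Type} {e : T → ℕ} {η : T → K}
    {hR : ∀ t, hm (e t) (η t) ∈ R} (η0 : ∀ t, η t ≠ 0)
    (hrad : ∀ (d : ℕ) (a : K) (h : hm d a ∈ R), 0 < d →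
      (⟨hm d a, h⟩ : R) ∈ Ideal.span (Set.range fun t => (⟨hm (e t) (η t), hR t⟩ : R)))
    (V : ValuationSubring K) (hV : ∀ f ∈ R, ∀ d, f.coeff d ∈ V) : ∃ t, ∀ x, hm 0 x ∈ loc R (hm (e t) (η t)) (hR t) → x ∈ V := by
  classical
  obtain ⟨J, hJ, hJn, d, y, hy, hgen⟩ := exists_pos_gens hCh.ft hCh.gr hCh.pos
  have hJf : Fintype J := Fintype.ofFinite J
  let D : ℕ := ∏ j, d j
  have hD0 : 0 < D := Finset.prod_pos fun j _ => (hy j).1
  have hdvd : ∀ j, d j ∣ D := fun j => Finset.dvd_prod_of_mem d (Finset.mem_univ j)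
  have hq : ∀ j, D / d j * d j = D := fun j => Nat.div_mul_cancel (hdvd j)
  obtain ⟨j0, hj0⟩ := Finite.exists_max fun j : J => V.valuation (y j) ^ (D / d j)
  have hmax : ∀ j, V.valuation (y j) ^ d j0 ≤ V.valuation (y j0) ^ d j := by
    intro j
    have h1 := hj0 j
    have h2 : (V.valuation (y j) ^ d j0) ^ D ≤ (V.valuation (y j0) ^ d j) ^ D := by
      have h3 := pow_le_pow_left' h1 (d j * d j0)
      rw [← pow_mul, ← pow_mul] at h3 ⊢
      have e3 : D / d j * (d j * d j0) = d j0 * D := by rw [← mul_assoc, hq j]; ring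
      have e4 : D / d j0 * (d j * d j0) = d j * D := by
        rw [mul_comm (d j), ← mul_assoc, hq j0]; ring
      rwa [e3, e4] at h3
    exact le_of_pow_le_pow_left₀ hD0.ne' zero_le h2
  set v := V.valuation with hv
  have hval : ∀ {x : LP K}, x ∈ R → ∀ m : ℤ, v (x.coeff m) ^ d j0 ≤ v (y j0) ^ m := by
    intro x hx m
    exact val_R d y hgen V hV j0 (hy j0).1 (hy j0).2.1 (hy j0).2.2 hmax hx m
  have hpos : 0 < v (y j0) := by
    rw [zero_lt_iff, Ne, map_eq_zero]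
    exact (hy j0).2.1
  obtain ⟨N, hN⟩ : ∃ N : ℕ, (⟨hm (d j0) (y j0), (hy j0).2.2⟩ : R) ^ N ∈
      Ideal.span (Set.range fun t => (⟨hm (e t) (η t), hR t⟩ : R)) :=
    ⟨1, by rw [pow_one]; exact hrad (d j0) (y j0) (hy j0).2.2 (hy j0).1⟩
  obtain ⟨m, f, t, hsum⟩ := Submodule.mem_span_set'.1 hN
  choose t' ht' using fun i => (t i).2
  have h2 : (∑ i, ((f i : R) : LP K) * hm (e (t' i)) (η (t' i))) = hm (d j0) (y j0) ^ N := by
    have h3 := congrArg (fun z : R => (z : LP K)) hsum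
    simp only [AddSubmonoidClass.coe_finsetSum, smul_eq_mul, MulMemClass.coe_mul] at h3
    refine Eq.trans ?_ h3
    refine Finset.sum_congr rfl fun i _ => ?_
    rw [← ht' i]
  have h5 : ∀ s : Finset (Fin m),
      (∑ i ∈ s, ((f i : R) : LP K) * hm (e (t' i)) (η (t' i))).coeff (N * d j0) =
      ∑ i ∈ s, ((f i : R) : LP K).coeff (N * d j0 - e (t' i)) * η (t' i) := by
    intro s
    rw [AddMonoidAlgebra.coeff_sum, Finsupp.finsetSum_apply]
    refine Finset.sum_congr rfl fun i _ => ?_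
    rw [mul_comm, coeff_hm_mul, mul_comm]
  have h4 := congrArg (fun z => z.coeff (N * d j0 : ℤ)) h2
  have h6 : (hm (d j0) (y j0) ^ N).coeff (N * d j0 : ℤ) = y j0 ^ N := by
    rw [hm_pow, coeff_hm_same]
  simp only [h6, h5] at h4
  have hex : ∃ i, v (y j0) ^ N ≤
      v (((f i : R) : LP K).coeff (N * d j0 - e (t' i)) * η (t' i)) := by
    by_contra hcon
    push Not at hcon
    have h7 : v (∑ i, ((f i : R) : LP K).coeff (N * d j0 - e (t' i)) * η (t' i)) <
        v (y j0) ^ N := Valuation.map_sum_lt _ (pow_pos hpos N).ne' fun i _ => hcon i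
    rw [h4, map_pow] at h7
    exact lt_irrefl _ h7
  obtain ⟨i, hi⟩ := hex
  set t0 := t' i with ht0
  have h8 := hval (f i).2 (N * d j0 - e t0)
  have h9 : v (y j0) ^ (e t0 : ℤ) ≤ v (η t0) ^ d j0 := by
    rw [map_mul] at hi
    have h10 := pow_le_pow_left' hi (d j0)
    rw [mul_pow] at h10
    have h11 : v (y j0) ^ (N * d j0 - e t0 : ℤ) * v (y j0) ^ (e t0 : ℤ) ≤
        v (y j0) ^ (N * d j0 - e t0 : ℤ) * v (η t0) ^ d j0 := by
      rw [← zpow_add₀ hpos.ne', sub_add_cancel]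
      have h12 : v (y j0) ^ (N * d j0 : ℤ) = (v (y j0) ^ N) ^ d j0 := by
        rw [← pow_mul, ← zpow_natCast]
        push_cast
        rfl
      rw [h12]
      exact h10.trans (mul_le_mul' h8 le_rfl)
    by_contra hcon
    rw [not_le] at hcon
    exact absurd h11 (not_le.2 (mul_lt_mul_of_pos_left hcon (zpow_pos hpos _)))
  refine ⟨t0, ?_⟩
  rintro x ⟨l, hl⟩
  have h13 := hval hl (l * e t0)
  rw [hm_pow, hm_mul, add_zero, coeff_hm_same, map_mul, map_pow, mul_pow] at h13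
  have h14 : v (y j0) ^ (l * e t0 : ℤ) ≤ (v (η t0) ^ l) ^ d j0 := by
    have h15 : v (y j0) ^ (l * e t0 : ℤ) = (v (y j0) ^ (e t0 : ℤ)) ^ l := by
      rw [← zpow_natCast, ← zpow_mul, mul_comm]
    rw [h15]
    refine (pow_le_pow_left' h9 l).trans (le_of_eq ?_)
    rw [← pow_mul, ← pow_mul, mul_comm]
  have hη : 0 < v (η t0) := by
    rw [zero_lt_iff, Ne, map_eq_zero]
    exact η0 t0
  have h16 : v x ^ d j0 ≤ 1 := by
    by_contra hcon
    rw [not_le] at hcon
    have h17 := mul_lt_mul_of_pos_left hcon (pow_pos (pow_pos hη l) (d j0))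
    rw [mul_one] at h17
    exact absurd (h13.trans h14) (not_le.2 h17)
  rw [← V.valuation_le_one_iff]
  by_contra hcon
  rw [not_le] at hcon
  exact absurd h16 (not_le.2 (one_lt_pow₀ hcon (hy j0).1.ne'))

/-- a finite family of homogeneous elements of positive degree -/
lemma exists_fam [IsNoetherianRing k] (hCh : Ch R) :
    ∃ (T : Type) (_ : Finite T) (e : T → ℕ) (η : T → K) (hR : ∀ t, hm (e t) (η t) ∈ R),
      (∀ t, 0 < e t) ∧ (∀ t, η t ≠ 0) ∧ ∀ (d : ℕ) (a : K) (h : hm d a ∈ R), 0 < d →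
        (⟨hm d a, h⟩ : R) ∈ Ideal.span (Set.range fun t => (⟨hm (e t) (η t), hR t⟩ : R)) := by
  classical
  have hft := hCh.ft
  have hRn : IsNoetherianRing R := Algebra.FiniteType.isNoetherianRing k R
  let S : Set R := {x | ∃ (e : ℕ) (η : K) (he : hm e η ∈ R), 0 < e ∧ η ≠ 0 ∧ x = ⟨hm e η, he⟩}
  have hfg : (Ideal.span S).FG := IsNoetherian.noetherian _
  obtain ⟨T0, hT0S, hT0⟩ := (Submodule.fg_span_iff_fg_span_finset_subset S).1 hfg
  let T := {x // x ∈ T0}
  choose e η he he0 hη0 hxeq using fun t : T => hT0S t.2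
  refine ⟨T, inferInstance, e, η, he, he0, hη0, ?_⟩
  intro d a h hd
  by_cases ha : a = 0
  · have h1 : (⟨hm d a, h⟩ : R) = 0 := by
      apply Subtype.ext
      change hm (d : ℤ) a = 0
      rw [ha, hm_zero]
    rw [h1]
    exact Ideal.zero_mem _
  · have h1 : (⟨hm d a, h⟩ : R) ∈ Ideal.span S := Ideal.subset_span ⟨d, a, h, hd, ha, rfl⟩
    have h2 : (Ideal.span S : Ideal R) = Ideal.span (T0 : Set R) := hT0
    rw [h2] at h1
    have h3 : Ideal.span (T0 : Set R) ≤ Ideal.span (Set.range fun t : T =>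
        (⟨hm (e t) (η t), he t⟩ : R)) := by
      rw [Ideal.span_le]
      intro z hz
      refine Ideal.subset_span ⟨⟨z, hz⟩, ?_⟩
      exact (hxeq ⟨z, hz⟩).symm
    exact h3 h1

end cover

/-- **Compatible weighted blowups give an atlas.** -/
theorem t_ATLAS : S_ATLAS := by
  intro k K _ _ _ _ _ _ P M₀ Kf 𝒜 _ R hh hCh hh0 hhK hRK hrt hgl hcv hfr hve hmo
  classical
  choose T hT e η hR he0 hη0 hrad using fun a => exists_fam (hCh a)
  have h𝒜f : Fintype 𝒜 := Fintype.ofFinite 𝒜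
  have hTf : ∀ a, Fintype (T a) := fun a => Fintype.ofFinite (T a)
  let Q := Σ a, T a
  let e' : Q → ℕ := fun p => e p.1 p.2
  let η' : Q → K := fun p => η p.1 p.2
  have he' : ∀ p, 0 < e' p := fun p => he0 p.1 p.2
  have hη'0 : ∀ p, η' p ≠ 0 := fun p => hη0 p.1 p.2
  have hRp : ∀ p, hm (e' p) (η' p) ∈ R p.1 := fun p => hR p.1 p.2
  have hη'K : ∀ p, η' p ∈ Kf := fun p => hRK p.1 _ _ (hRp p)
  let E : ℕ := ∏ p, e' p
  have hE0 : 0 < E := Finset.prod_pos fun j _ => he' j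
  let q : Q → ℕ := fun p => E / e' p
  have hq : ∀ p, q p * e' p = E := fun p =>
    Nat.div_mul_cancel (Finset.dvd_prod_of_mem e' (Finset.mem_univ p))
  have hqE : ∀ p, q p ≤ E := fun p => Nat.div_le_self _ _
  have hq1 : ∀ p, 1 ≤ q p := by
    intro p
    rcases Nat.eq_zero_or_pos (q p) with h1 | h1
    · have := hq p
      rw [h1, zero_mul] at this
      omega
    · exact h1
  choose n1 hn1 using fun (a : 𝒜) (p : Q) => hgl a p.1 _ (hRp p)
  let N1 : ℕ := Finset.univ.sup fun a => Finset.univ.sup (n1 a)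
  have hN1 : ∀ a p, n1 a p ≤ N1 := fun a p => (Finset.le_sup (f := n1 a) (Finset.mem_univ p)).trans
    (Finset.le_sup (f := fun a => Finset.univ.sup (n1 a)) (Finset.mem_univ a))
  -- the elements `η ^ q` have degree zero
  have hηq : ∀ p, hm 0 (η' p ^ q p) ∈ R p.1 := by
    intro p
    have h1 := (R p.1).pow_mem ((hCh p.1).cf _ _ (hRp p)) (q p)
    rw [hm_pow, mul_zero] at h1
    exact h1
  obtain ⟨N2, hN2⟩ : ∃ N2 : ℕ, P → ∃ n : ℕ, 1 ≤ n ∧ (∀ a, hh a ∈ sat (M₀ ^ n) ∧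
      (∀ m ∈ M₀ ^ n, ∃ s : k, s ≠ 0 ∧ hm 0 (s • (m / hh a)) ∈ R a) ∧
      ∀ f, hm 0 f ∈ R a → ∃ N₀ : ℕ, ∀ N, N₀ ≤ N → hh a ^ N * f ∈ sat (M₀ ^ (n * N))) ∧
      ∀ p, ∀ N, N2 ≤ N → hh p.1 ^ N * η' p ^ q p ∈ sat (M₀ ^ (n * N)) := by
    by_cases hP : P
    · obtain ⟨n, hn, h1⟩ := hmo hP
      choose N0 hN0 using fun p : Q => (h1 p.1).2.2 _ (hηq p)
      refine ⟨Finset.univ.sup N0, fun _ => ⟨n, hn, h1, fun p N hN => hN0 p N ?_⟩⟩
      exact (Finset.le_sup (f := N0) (Finset.mem_univ p)).trans hN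
    · exact ⟨0, fun h => absurd h hP⟩
  let N : ℕ := N1 * E + N2 + 1
  have F1 : ∀ (a : 𝒜) (p : Q) (m c : ℕ), m * N1 ≤ c →
      hm 0 (hh p.1 / hh a) ^ c * hm (e' p) (η' p) ^ m ∈ R a := by
    intro a p m c hc
    obtain ⟨b, rfl⟩ := Nat.exists_eq_add_of_le hc
    obtain ⟨d, hd⟩ := Nat.exists_eq_add_of_le (hN1 a p)
    have h3 : hm 0 (hh p.1 / hh a) ^ (m * N1 + b) * hm (e' p) (η' p) ^ m =
        hm 0 (hh p.1 / hh a) ^ (m * d + b) *
          (hm 0 (hh p.1 / hh a) ^ n1 a p * hm (e' p) (η' p)) ^ m := by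
      rw [hd]; ring
    rw [h3]
    exact (R a).mul_mem ((R a).pow_mem (hrt a p.1) _) ((R a).pow_mem (hn1 a p) _)
  let H : Q → K := fun p => hh p.1 ^ N * η' p ^ q p
  have hH0 : ∀ p, H p ≠ 0 := fun p => mul_ne_zero (pow_ne_zero _ (hh0 _)) (pow_ne_zero _ (hη'0 p))
  have hκ : ∀ p, hm (e' p) (η' p) ^ (q p) = hm E (η' p ^ q p) := by
    intro p
    rw [hm_pow]
    congr 1
    exact_mod_cast hq p
  have htr : ∀ p p' : Q, hm (e' p) (η' p) ^ q p * hm 0 (H p' / H p) =
        hm 0 (hh p'.1 / hh p.1) ^ N * hm (e' p') (η' p') ^ q p' := by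
    intro p p'
    rw [hκ, hκ, hm_mul, hm_pow, hm_mul]
    congr 1
    · ring
    · change η' p ^ q p * (hh p'.1 ^ N * η' p' ^ q p' / (hh p.1 ^ N * η' p ^ q p)) = _
      have e1 := hh0 p.1
      have e2 := hη'0 p
      rw [div_pow]
      field_simp
  have hinvp : ∀ p, hm (-(e' p : ℤ)) (η' p)⁻¹ ∈ loc (R p.1) (hm (e' p) (η' p)) (hRp p) := by
    intro p
    refine inv_mem_loc _ _ _ _ ?_
    rw [hm_mul, add_neg_cancel, mul_inv_cancel₀ (hη'0 p), hm_one]
  refine ⟨Finset.univ.sup e', Q, inferInstance,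
    fun p => loc (R p.1) (hm (e' p) (η' p)) (hRp p), H, ?_⟩
  refine
    { H0 := hH0
      HK := fun p => Kf.mul_mem (Kf.pow_mem (hhK p.1) _) (Kf.pow_mem (hη'K p) _)
      ft := fun p => ft_loc (hCh p.1).ft (hRp p) (isUnit_hm (hη'0 p))
      rg := fun p => (hCh p.1).rg (e' p) (η' p) (hRp p) (he' p) (hη'0 p)
      gr := fun p => gr_loc (hCh p.1).gr (hη'0 p) (hRp p)
      ss := fun p => le_loc _ _ _ (hCh p.1).ss
      un := ?_
      fr := ?_
      inF := ?_
      rt := ?_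
      gl := ?_
      cv := ?_
      ve := ?_
      mo := ?_ }
  · intro p
    exact ⟨e' p, he' p, Finset.le_sup (f := e') (Finset.mem_univ p), η' p, hη'0 p,
      le_loc _ _ _ (hRp p), hinvp p⟩
  · intro p x hx
    obtain ⟨y, y', hy, hy', h0, hxy⟩ := hfr p.1 x hx
    exact ⟨y, y', le_loc _ _ _ hy, le_loc _ _ _ hy', h0, hxy⟩
  · rintro p d x ⟨n, hn⟩
    rw [hm_pow, hm_mul] at hn
    have h1 := hRK p.1 _ _ hn
    have h2 : x = (η' p ^ n * x) / η' p ^ n := by
      have e2 := hη'0 p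
      field_simp
    rw [h2]
    exact Kf.div_mem h1 (Kf.pow_mem (hη'K p) n)
  · intro p p'
    refine ⟨q p, ?_⟩
    rw [htr]
    refine F1 p.1 p' _ _ ?_
    change q p' * N1 ≤ N1 * E + N2 + 1
    have := Nat.mul_le_mul_left N1 (hqE p')
    rw [mul_comm (q p') N1]
    omega
  · rintro p p' f ⟨m, hm'⟩
    obtain ⟨n2, hn2⟩ := hgl p.1 p'.1 _ hm'
    let n := m + n2
    refine ⟨n, q p * n, ?_⟩
    have h2 : m ≤ q p' * n := by
      have := hq1 p'
      calc m ≤ n := Nat.le_add_right _ _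
        _ ≤ q p' * n := Nat.le_mul_of_pos_left _ this
    obtain ⟨c', hc'⟩ := Nat.exists_eq_add_of_le h2
    have h3 : c' * N1 + n2 ≤ N * n := by
      have h4 : c' * N1 ≤ q p' * n * N1 := Nat.mul_le_mul_right _ (by omega)
      have h5 : q p' * n * N1 ≤ E * n * N1 :=
        Nat.mul_le_mul_right _ (Nat.mul_le_mul_right _ (hqE p'))
      have h6 : N * n = E * n * N1 + N2 * n + n := by
        change (N1 * E + N2 + 1) * n = _
        ring
      have h7 : n2 ≤ n := Nat.le_add_left _ _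
      omega
    obtain ⟨d', hd'⟩ := Nat.exists_eq_add_of_le h3
    have h1 : hm (e' p) (η' p) ^ (q p * n) * (hm 0 (H p' / H p) ^ n * f) =
        hm 0 (hh p'.1 / hh p.1) ^ d' *
          ((hm 0 (hh p'.1 / hh p.1) ^ (c' * N1) * hm (e' p') (η' p') ^ c') *
          (hm 0 (hh p'.1 / hh p.1) ^ n2 * (hm (e' p') (η' p') ^ m * f))) := by
      rw [pow_mul, ← mul_assoc, ← mul_pow, htr, mul_pow, ← pow_mul, ← pow_mul, hd', hc']
      ring
    rw [h1]
    exact (R p.1).mul_mem ((R p.1).pow_mem (hrt _ _) _)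
      ((R p.1).mul_mem (F1 p.1 p' _ _ le_rfl) hn2)
  · intro V hV
    obtain ⟨a, ha⟩ := hcv V hV
    obtain ⟨t, ht⟩ := cover_cv (hCh a) (hR := hR a) (hη0 a) (hrad a) V
      (fun f hf d => ha _ ((hCh a).cf d _ ((hCh a).gr f hf d)))
    exact ⟨⟨a, t⟩, ht⟩
  · intro hP p
    obtain ⟨s, hs, h1⟩ := hve hP p.1
    exact ⟨s, hs, le_loc _ _ _ h1⟩
  · intro hP
    obtain ⟨n, hn, h1, h2⟩ := hN2 hP
    refine ⟨n * N, Nat.mul_pos hn (Nat.succ_pos _), fun p => ⟨?_, ?_, ?_⟩⟩
    · exact h2 p N (by change N2 ≤ N1 * E + N2 + 1; omega)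
    · intro m hm'
      rw [pow_mul] at hm'
      obtain ⟨s, hs, h3⟩ := div_pow_mem (h1 p.1).2.1 N m hm'
      obtain ⟨s0, hs0, h4⟩ := hve hP p.1
      refine ⟨s * s0 ^ (q p * e' p), mul_ne_zero hs (pow_ne_zero _ hs0), ?_⟩
      have h5 := (loc (R p.1) (hm (e' p) (η' p)) (hRp p)).mul_mem
        (le_loc (R p.1) (hm (e' p) (η' p)) (hRp p) h3)
        ((loc (R p.1) (hm (e' p) (η' p)) (hRp p)).mul_mem
          (le_loc (R p.1) (hm (e' p) (η' p)) (hRp p) ((R p.1).pow_mem h4 (q p * e' p)))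
          ((loc (R p.1) (hm (e' p) (η' p)) (hRp p)).pow_mem (hinvp p) (q p)))
      rw [hm_pow, hm_pow, hm_mul, hm_mul] at h5
      have e5 : (0 : ℤ) + (((q p * e' p : ℕ) : ℤ) * 1 + (q p : ℤ) * -(e' p : ℤ)) = 0 := by
        push_cast
        ring
      rw [e5] at h5
      have e6 : s • (m / hh p.1 ^ N) * (algebraMap k K s0 ^ (q p * e' p) * (η' p)⁻¹ ^ q p) =
          (s * s0 ^ (q p * e' p)) • (m / H p) := by
        change _ = (s * s0 ^ (q p * e' p)) • (m / (hh p.1 ^ N * η' p ^ q p))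
        rw [Algebra.smul_def, Algebra.smul_def, map_mul, map_pow, inv_pow]
        have e1 := pow_ne_zero N (hh0 p.1)
        have e2 := pow_ne_zero (q p) (hη'0 p)
        field_simp
      rw [e6] at h5
      exact h5
    · rintro f ⟨j, hj⟩
      rw [hm_pow, hm_mul] at hj
      have h3 := (hCh p.1).cf _ _ hj
      obtain ⟨i, hi⟩ := Nat.exists_eq_add_of_le (Nat.le_mul_of_pos_left j (hq1 p))
      have h4 : hm 0 (η' p ^ (q p * j) * f) ∈ R p.1 := by
        have h5 := (R p.1).mul_mem ((R p.1).pow_mem ((hCh p.1).cf _ _ (hRp p)) i) h3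
        rw [hm_pow, hm_mul, mul_zero, add_zero] at h5
        rw [hi, pow_add]
        have e7 : η' p ^ j * η' p ^ i * f = η' p ^ i * (η' p ^ j * f) := by ring
        rw [e7]
        exact h5
      obtain ⟨N3, hN3⟩ := (h1 p.1).2.2 _ h4
      refine ⟨N3 + j, fun N' hN' => ?_⟩
      obtain ⟨l, rfl⟩ := Nat.exists_eq_add_of_le (show j ≤ N' by omega)
      have h6 := hN3 (l + N * j) (by
        have : 0 ≤ N * j := Nat.zero_le _
        omega)
      have h7 := sat_pow (h2 p (N1 * E + N2) (by omega)) l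
      have h8 := sat_mul h7 h6
      rw [← pow_mul, ← pow_add] at h8
      have e8 : n * (N1 * E + N2) * l + n * (l + N * j) = n * N * (j + l) := by
        change n * (N1 * E + N2) * l + n * (l + (N1 * E + N2 + 1) * j) =
          n * (N1 * E + N2 + 1) * (j + l)
        ring
      rw [e8] at h8
      have e9 : (hh p.1 ^ (N1 * E + N2) * η' p ^ q p) ^ l *
          (hh p.1 ^ (l + N * j) * (η' p ^ (q p * j) * f)) = H p ^ (j + l) * f := by
        change _ = (hh p.1 ^ (N1 * E + N2 + 1) * η' p ^ q p) ^ (j + l) * f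
        change (hh p.1 ^ (N1 * E + N2) * η' p ^ q p) ^ l *
          (hh p.1 ^ (l + (N1 * E + N2 + 1) * j) * (η' p ^ (q p * j) * f)) = _
        rw [mul_pow, mul_pow, ← pow_mul, ← pow_mul, ← pow_mul, ← pow_mul]
        ring
      rw [e9] at h8
      exact h8

end Pool.Agent.Y363.G
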